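import Pool.Agent.K4H45.PC.Spec

set_option autoImplicit false

namespace Pool.Agent.K4H86.PCPo
open Set Polynomial K4H45.PC

theorem cos_sub_sq_le (ψ φ : ℝ) :
    (Real.cos ψ - Real.cos φ) ^ 2 ≤ 2 * (1 - Real.cos (ψ - φ)) ∧
    (Real.cos ψ - Real.cos φ) ^ 2 ≤ 2 * (1 - Real.cos (ψ + φ)) := by
  rw [Real.cos_sub, Real.cos_add]
  have h1 := Real.sin_sq_add_cos_sq ψ
  have h2 := Real.sin_sq_add_cos_sq φ
  constructor
  · nlinarith [sq_nonneg (Real.sin ψ - Real.sin φ)]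
  · nlinarith [sq_nonneg (Real.sin ψ + Real.sin φ)]

theorem po : S_PARS → S_POLY → S_DIFF → S_SUMS → S_PO := by
  intro hpars hpoly hdiff hsums n hn
  have hnR : (1 : ℝ) ≤ n := by exact_mod_cast hn
  set b : ℕ → ℝ := fun k => ((k : ℝ) + 1) * ((n : ℝ) + 1 - k) with hb
  set c : ℕ → ℝ := fun k => (n : ℝ) + 1 - 2 * k with hc
  set S : ℝ := ∑ k ∈ Finset.range (n + 1), b k ^ 2 with hS
  set S' : ℝ := ∑ k ∈ Finset.range (n + 2), c k ^ 2 with hS'
  have hsum : 10 * S = (((n : ℝ) + 2) ^ 2 + 1) * S' := hsums n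
  have hSpos : 0 < S := by
    have h0 : b 0 ^ 2 ≤ S := Finset.single_le_sum (f := fun k => b k ^ 2)
      (fun k _ => sq_nonneg _) (Finset.mem_range.2 (Nat.succ_pos n))
    have hb0 : b 0 = (n : ℝ) + 1 := by simp [hb]
    rw [hb0] at h0
    nlinarith
  have hMpos : (0 : ℝ) < ((n + 2 : ℕ) : ℝ) := by positivity
  set M : ℕ := n + 2 with hM
  have hMS : 0 < (M : ℝ) * S := mul_pos hMpos hSpos
  let ψ : Fin M → ℝ := fun j => 2 * Real.pi * (j : ℕ) / M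
  choose W hWdeg hWev using fun j : Fin M => hpoly n b (ψ j)
  -- Parseval over Fin M
  have hP : ∀ (m : ℕ) (b' : ℕ → ℝ) (φ : ℝ), m < M →
      ∑ j : Fin M, ‖q m b' (ψ j - φ)‖ ^ 2 = M * ∑ k ∈ Finset.range (m + 1), b' k ^ 2 := by
    intro m b' φ hm
    rw [← hpars m M b' φ hm, Finset.sum_range]
  have hP' : ∀ (m : ℕ) (b' : ℕ → ℝ) (φ : ℝ), m < M →
      ∑ j : Fin M, ‖q m b' (ψ j + φ)‖ ^ 2 = M * ∑ k ∈ Finset.range (m + 1), b' k ^ 2 := by
    intro m b' φ hm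
    have := hP m b' (-φ) hm
    simpa only [sub_neg_eq_add] using this
  refine ⟨M, fun j => Real.cos (ψ j), fun j => Polynomial.C ((M * S : ℝ)⁻¹) * W j, ?_, ?_, ?_, ?_, ?_⟩
  · intro j; exact ⟨Real.neg_one_le_cos _, Real.cos_le_one _⟩
  · intro j
    exact (Polynomial.natDegree_C_mul_le _ _).trans (hWdeg j)
  · intro j u hu
    obtain ⟨φ, rfl⟩ : ∃ φ, Real.cos φ = u := ⟨Real.arccos u, Real.cos_arccos hu.1 hu.2⟩
    rw [Polynomial.eval_mul, Polynomial.eval_C, hWev]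
    positivity
  · intro u hu
    obtain ⟨φ, rfl⟩ : ∃ φ, Real.cos φ = u := ⟨Real.arccos u, Real.cos_arccos hu.1 hu.2⟩
    simp only [Polynomial.eval_mul, Polynomial.eval_C, hWev]
    rw [← Finset.mul_sum, ← Finset.sum_div, Finset.sum_add_distrib,
      hP n b φ (by omega), hP' n b φ (by omega)]
    rw [← hS]
    field_simp
    norm_num
  · intro u hu
    obtain ⟨φ, rfl⟩ : ∃ φ, Real.cos φ = u := ⟨Real.arccos u, Real.cos_arccos hu.1 hu.2⟩
    simp only [Polynomial.eval_mul, Polynomial.eval_C, hWev]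
    have hterm : ∀ j : Fin M, (M * S : ℝ)⁻¹ *
        ((‖q n b (ψ j - φ)‖ ^ 2 + ‖q n b (ψ j + φ)‖ ^ 2) / 2) *
          (Real.cos (ψ j) - Real.cos φ) ^ 2 ≤
        (M * S : ℝ)⁻¹ * ((‖q (n + 1) c (ψ j - φ)‖ ^ 2 + ‖q (n + 1) c (ψ j + φ)‖ ^ 2) / 2) := by
      intro j
      have h1 := cos_sub_sq_le (ψ j) φ
      have h2 : 2 * (1 - Real.cos (ψ j - φ)) * ‖q n b (ψ j - φ)‖ ^ 2 =
        ‖q (n + 1) c (ψ j - φ)‖ ^ 2 := hdiff n _
      have h3 : 2 * (1 - Real.cos (ψ j + φ)) * ‖q n b (ψ j + φ)‖ ^ 2 =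
        ‖q (n + 1) c (ψ j + φ)‖ ^ 2 := hdiff n _
      rw [mul_assoc]
      apply mul_le_mul_of_nonneg_left _ (by positivity)
      rw [← h2, ← h3]
      have h4 := mul_le_mul_of_nonneg_right h1.1 (sq_nonneg ‖q n b (ψ j - φ)‖)
      have h5 := mul_le_mul_of_nonneg_right h1.2 (sq_nonneg ‖q n b (ψ j + φ)‖)
      linarith
    refine (Finset.sum_le_sum (fun j _ => hterm j)).trans ?_
    rw [← Finset.mul_sum, ← Finset.sum_div, Finset.sum_add_distrib,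
      hP (n + 1) c φ (by omega), hP' (n + 1) c φ (by omega)]
    have hS'' : ∑ k ∈ Finset.range (n + 1 + 1), c k ^ 2 = S' := rfl
    rw [hS'']
    have hn2 : (0 : ℝ) < (n : ℝ) ^ 2 := by positivity
    have heq : (M * S : ℝ)⁻¹ * ((M * S' + M * S') / 2) = S' / S := by
      field_simp
      norm_num
    rw [heq, div_le_div_iff₀ hSpos hn2]
    have hS'0 : 0 ≤ S' := Finset.sum_nonneg (fun k _ => sq_nonneg _)
    nlinarith

end Pool.Agent.K4H86.PCPo
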