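import Pool.Agent.K4H53.TilT1
import Pool.Agent.K4H67.TilT2
import Pool.Agent.K4H3.TilT3
import Pool.Agent.K4H43.TilT4
import Pool.Agent.K4H5.Tilnear

set_option autoImplicit false

open Set

namespace Pool.Agent.K4H72.Til

theorem deform (P : Set ℂ) (D : ℝ) (hD : 0 < D) (hdense : ∀ x : ℂ, ∃ p ∈ P, ‖x - p‖ ≤ D / 4)
    (hfin : {d : ℂ | ∃ p ∈ P, ∃ p' ∈ P, d = p - p' ∧ ‖d‖ ≤ 8 * D}.Finite) :
    ∃ (h : ℝ) (g : ℤ × ℤ → ℂ), Def1 h g ∧ ∀ R2 : ℝ, ∃ R : ℝ, ∀ x y : ℂ,
      (∀ p : ℂ, ‖p‖ < R → (x + p ∈ P ↔ y + p ∈ P)) →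
        ∃ τ : ℤ × ℤ, ∀ v, ‖g v - x‖ ≤ R2 → g (v + τ) = g v + (y - x) := by
  classical
  set F : Set ℂ := {d : ℂ | ∃ p ∈ P, ∃ p' ∈ P, d = p - p' ∧ ‖d‖ ≤ 8 * D} with hF
  -- η
  obtain ⟨η, hη0, hη1, hη2⟩ : ∃ η : ℝ, 0 < η ∧ η ≤ D / 8 ∧ η * (25 + 8 / D) ≤ 1 / 20 := by
    have hpos : 0 < 25 + 8 / D := by positivity
    refine ⟨min (D / 8) (1 / (20 * (25 + 8 / D))), ?_, min_le_left _ _, ?_⟩
    · apply lt_min (by positivity) (by positivity)
    · calc min (D / 8) (1 / (20 * (25 + 8 / D))) * (25 + 8 / D)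
          ≤ 1 / (20 * (25 + 8 / D)) * (25 + 8 / D) :=
            mul_le_mul_of_nonneg_right (min_le_right _ _) hpos.le
        _ = 1 / 20 := by field_simp
  obtain ⟨M, hM0, φ, hφ⟩ := approx F hfin η hη0
  have hM1 : (1 : ℝ) ≤ M := by exact_mod_cast hM0
  have hMpos : (0 : ℝ) < M := by linarith
  -- differences
  have hmemG : ∀ p ∈ P, ∀ p' ∈ P, p - p' ∈ AddSubgroup.closure F :=
    mem_closure P D hD hdense (AddSubgroup.closure F) (fun p hp p' hp' hn =>
      AddSubgroup.subset_closure ⟨p, hp, p', hp', rfl, by linarith⟩)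
  obtain ⟨p0, hp0, _⟩ := hdense 0
  let Φ : ℂ → ℤ × ℤ := fun p =>
    if h : p - p0 ∈ AddSubgroup.closure F then φ ⟨p - p0, h⟩ else 0
  have hΦsub : ∀ p ∈ P, ∀ p' ∈ P, ∀ (h : p - p' ∈ AddSubgroup.closure F),
      Φ p - Φ p' = φ ⟨p - p', h⟩ := by
    intro p hp p' hp' h
    have h1 := hmemG p hp p0 hp0
    have h2 := hmemG p' hp' p0 hp0
    simp only [Φ, dif_pos h1, dif_pos h2]
    rw [← map_sub]
    congr 1
    apply Subtype.ext
    show (p - p0) - (p' - p0) = p - p'
    ring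
  have hsmall : ∀ p ∈ P, ∀ p' ∈ P, ‖p - p'‖ ≤ 8 * D →
      ‖(M : ℂ) * (p - p') - E (Φ p - Φ p')‖ ≤ η := by
    intro p hp p' hp' hn
    have hf : p - p' ∈ F := ⟨p, hp, p', hp', rfl, hn⟩
    rw [hΦsub p hp p' hp' (AddSubgroup.subset_closure hf)]
    exact hφ _ hf
  let u : ℂ → ℂ := fun p => (M : ℂ) * p - E (Φ p)
  have hu_sub : ∀ p p' : ℂ, u p - u p' = (M : ℂ) * (p - p') - E (Φ p - Φ p') := by
    intro p p'
    simp only [u, E_sub]; ring
  have hlip := lip P D hD hdense u η hη0.le (fun p hp p' hp' hn => by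
    rw [hu_sub]; exact hsmall p hp p' hp' (by linarith))
  have hnear := near P D hD hdense Φ M hM1 (fun p hp p' hp' hn =>
    by
      have := hsmall p hp p' hp' (by linarith)
      have h2 : ‖((M : ℝ) : ℂ) * (p - p') - E (Φ p - Φ p')‖ ≤ η := by exact_mod_cast this
      linarith)
  let N : ℤ × ℤ → Set ℂ := fun v => {p | p ∈ P ∧ ‖E (Φ p - v)‖ ≤ M * D}
  have hNne : ∀ v, (N v).Nonempty := by
    intro v
    obtain ⟨p, hp, hpn⟩ := hnear v
    exact ⟨p, hp, hpn⟩
  -- distances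
  have hη4 : η * (4 / D) ≤ 1 / 2 := by
    have : η * (4 / D) ≤ (D / 8) * (4 / D) := mul_le_mul_of_nonneg_right hη1 (by positivity)
    have h2 : (D / 8) * (4 / D) = 1 / 2 := by field_simp; norm_num
    linarith
  have hMn : ‖(M : ℂ)‖ = M := by simp
  have hdist : ∀ p ∈ P, ∀ p' ∈ P, ∀ B : ℝ, ‖E (Φ p - Φ p')‖ ≤ B →
      ‖p - p'‖ ≤ 2 * η + 2 * B / M := by
    intro p hp p' hp' B hB
    have h1 := hlip p hp p' hp'
    have h2 : (M : ℂ) * (p - p') = (u p - u p') + E (Φ p - Φ p') := by rw [hu_sub]; ring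
    have h3 : (M : ℝ) * ‖p - p'‖ ≤ ‖u p - u p'‖ + ‖E (Φ p - Φ p')‖ := by
      rw [← hMn, ← norm_mul, h2]; exact norm_add_le _ _
    have h4 : η * (1 + 4 * ‖p - p'‖ / D) = η + η * (4 / D) * ‖p - p'‖ := by ring
    have h5 : η * (4 / D) * ‖p - p'‖ ≤ 1 / 2 * ‖p - p'‖ :=
      mul_le_mul_of_nonneg_right hη4 (norm_nonneg _)
    have h6 : 1 / 2 * ‖p - p'‖ ≤ M / 2 * ‖p - p'‖ :=
      mul_le_mul_of_nonneg_right (by linarith) (norm_nonneg _)
    have h7 : M / 2 * ‖p - p'‖ ≤ η + B := by linarith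
    have h8 : ‖p - p'‖ ≤ (η + B) * (2 / M) := by
      have : ‖p - p'‖ = (M / 2 * ‖p - p'‖) * (2 / M) := by field_simp
      rw [this]
      exact mul_le_mul_of_nonneg_right h7 (by positivity)
    have h9 : η * (2 / M) ≤ 2 * η := by
      rw [mul_div_assoc', div_le_iff₀ hMpos]; nlinarith
    have h10 : (η + B) * (2 / M) = η * (2 / M) + 2 * B / M := by ring
    linarith
  have hNdist : ∀ v, ∀ p ∈ N v, ∀ p' ∈ N v, ‖p - p'‖ ≤ 6 * D := by
    intro v p hp p' hp'
    have h1 : ‖E (Φ p - Φ p')‖ ≤ 2 * (M * D) := by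
      have : E (Φ p - Φ p') = E (Φ p - v) - E (Φ p' - v) := by simp only [E_sub]; ring
      rw [this]
      have := norm_sub_le (E (Φ p - v)) (E (Φ p' - v))
      linarith [hp.2, hp'.2]
    have h2 := hdist p hp.1 p' hp'.1 _ h1
    have h3 : 2 * (2 * ((M : ℝ) * D)) / M = 4 * D := by field_simp; norm_num
    rw [h3] at h2
    linarith
  have hNfin : ∀ v, (N v).Finite := by
    intro v
    obtain ⟨p1, hp1⟩ := hNne v
    refine (hfin.image (fun d => d + p1)).subset ?_
    intro p hp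
    refine ⟨p - p1, ⟨p, hp.1, p1, hp1.1, rfl, ?_⟩, by simp⟩
    have := hNdist v p hp p1 hp1
    linarith
  obtain ⟨c, hc1, hc2⟩ := choice
  let γ : ℤ × ℤ → ℂ := fun v => E v + c (u '' N v)
  have hcmem : ∀ v, ∃ p ∈ N v, u p = c (u '' N v) := by
    intro v
    have := hc1 (u '' N v) ((hNfin v).image u) ((hNne v).image u)
    exact this
  have hMC : (M : ℂ) ≠ 0 := by
    have : (M : ℕ) ≠ 0 := by omega
    exact_mod_cast this
  refine ⟨1 / M, fun v => γ v / M, ⟨by positivity, ?_⟩, ?_⟩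
  · intro v w
    by_cases hvw : v = w
    · subst hvw; simp [E]
    have hL : 1 ≤ ‖E (v - w)‖ := by
      rcases E_cases (v - w) with h | h | h
      · exact absurd (sub_eq_zero.1 h) hvw
      · exact h.2.symm.le
      · have := norm_nonneg (E (v - w)); nlinarith
    obtain ⟨p, hp, hpe⟩ := hcmem v
    obtain ⟨p', hp', hpe'⟩ := hcmem w
    have h0 : γ v / (M : ℂ) - γ w / M - ((1 / (M : ℝ) : ℝ) : ℂ) * E (v - w) =
        (u p - u p') / M := by
      simp only [γ, ← hpe, ← hpe', E_sub]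
      push_cast
      field_simp
      ring
    rw [h0, norm_div, hMn]
    have h1 : ‖E (Φ p - Φ p')‖ ≤ 2 * (M * D) + ‖E (v - w)‖ := by
      have : E (Φ p - Φ p') = E (Φ p - v) - E (Φ p' - w) + E (v - w) := by
        simp only [E_sub]; ring
      rw [this]
      have h1 := norm_add_le (E (Φ p - v) - E (Φ p' - w)) (E (v - w))
      have h2 := norm_sub_le (E (Φ p - v)) (E (Φ p' - w))
      linarith [hp.2, hp'.2]
    have h2 := hdist p hp.1 p' hp'.1 _ h1
    have h3 : 2 * (2 * ((M : ℝ) * D) + ‖E (v - w)‖) / M = 4 * D + 2 * ‖E (v - w)‖ / M := by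
      field_simp; ring
    rw [h3] at h2
    have h4 : 2 * ‖E (v - w)‖ / M ≤ 2 * ‖E (v - w)‖ := by
      rw [div_le_iff₀ hMpos]
      nlinarith [norm_nonneg (E (v - w))]
    have h5 := hlip p hp.1 p' hp'.1
    set L := ‖E (v - w)‖ with hLdef
    have h6 : ‖p - p'‖ ≤ 5 * D + 2 * L := by linarith
    have h7 : 4 * ‖p - p'‖ / D ≤ 20 + 8 / D * L := by
      rw [div_le_iff₀ hD]
      have : (20 + 8 / D * L) * D = 20 * D + 8 * L := by field_simp
      rw [this]; linarith
    have h8 : ‖u p - u p'‖ ≤ η * (21 + 8 / D * L) := by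
      refine h5.trans ?_
      apply mul_le_mul_of_nonneg_left _ hη0.le
      linarith
    have h9 : η * (21 + 8 / D * L) ≤ η * (25 + 8 / D) * L := by
      have h10 : 21 + 8 / D * L ≤ (25 + 8 / D) * L := by
        have : 0 < 8 / D := by positivity
        nlinarith
      calc η * (21 + 8 / D * L) ≤ η * ((25 + 8 / D) * L) :=
            mul_le_mul_of_nonneg_left h10 hη0.le
        _ = η * (25 + 8 / D) * L := by ring
    have h11 : η * (25 + 8 / D) * L ≤ 1 / 20 * L :=
      mul_le_mul_of_nonneg_right hη2 (by linarith)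
    rw [div_le_iff₀ hMpos]
    have h12 : 1 / 20 * (1 / (M : ℝ)) * L * M = 1 / 20 * L := by field_simp
    rw [h12]
    linarith
  · intro R2
    refine ⟨|R2| + 8 * D, ?_⟩
    intro x y hxy
    obtain ⟨p1, hp1, hp1n⟩ := hdense x
    have hR2 := le_abs_self R2
    have hR20 := abs_nonneg R2
    -- transport of points
    have htr : ∀ p : ℂ, ‖p - x‖ < |R2| + 8 * D → (p ∈ P ↔ p - x + y ∈ P) := by
      intro p hp
      have := hxy (p - x) hp
      have e1 : x + (p - x) = p := by ring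
      have e2 : y + (p - x) = p - x + y := by ring
      rw [e1, e2] at this
      exact this
    have hp1x : ‖p1 - x‖ < |R2| + 8 * D := by
      rw [norm_sub_rev]; linarith
    have hp1' : p1 - x + y ∈ P := (htr p1 hp1x).1 hp1
    refine ⟨Φ (p1 - x + y) - Φ p1, ?_⟩
    set τ := Φ (p1 - x + y) - Φ p1 with hτ
    have hΦtr : ∀ p ∈ P, p - x + y ∈ P → Φ (p - x + y) = Φ p + τ := by
      intro p hp hp'
      have h1 := hmemG _ hp' _ hp1'
      have h2 := hmemG p hp p1 hp1
      have e1 := hΦsub _ hp' _ hp1' h1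
      have e2 := hΦsub p hp p1 hp1 h2
      have e3 : φ ⟨(p - x + y) - (p1 - x + y), h1⟩ = φ ⟨p - p1, h2⟩ := by
        congr 1
        apply Subtype.ext
        show (p - x + y) - (p1 - x + y) = p - p1
        ring
      rw [e3, ← e2] at e1
      rw [hτ]
      have : Φ (p - x + y) = (Φ (p - x + y) - Φ (p1 - x + y)) + Φ (p1 - x + y) := by abel
      rw [this, e1]; abel
    intro v hv
    obtain ⟨ps, hps, hpse⟩ := hcmem v
    have hgs : ‖γ v / M - ps‖ ≤ D := by
      have e1 : γ v / M - ps = -(E (Φ ps - v)) / M := by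
        simp only [γ, ← hpse, u, E_sub]
        field_simp
        ring
      rw [e1, norm_div, norm_neg, hMn, div_le_iff₀ hMpos]
      have := hps.2
      linarith
    have hpsx : ‖ps - x‖ ≤ |R2| + D := by
      have e1 : ps - x = (γ v / M - x) - (γ v / M - ps) := by ring
      rw [e1]
      refine (norm_sub_le _ _).trans ?_
      have hv' : ‖γ v / (M : ℂ) - x‖ ≤ R2 := hv
      linarith
    have hNx : ∀ p ∈ N v, ‖p - x‖ < |R2| + 8 * D := by
      intro p hp
      have h1 := hNdist v p hp ps hps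
      have e1 : p - x = (p - ps) + (ps - x) := by ring
      rw [e1]
      refine lt_of_le_of_lt (norm_add_le _ _) ?_
      linarith
    have hNfwd : ∀ p ∈ N v, p - x + y ∈ N (v + τ) := by
      intro p hp
      have h1 : p - x + y ∈ P := (htr p (hNx p hp)).1 hp.1
      refine ⟨h1, ?_⟩
      rw [hΦtr p hp.1 h1]
      have : Φ p + τ - (v + τ) = Φ p - v := by abel
      rw [this]; exact hp.2
    have hNeq : u '' N (v + τ) = (fun z => z + ((M : ℂ) * (y - x) - E τ)) '' (u '' N v) := by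
      ext z
      constructor
      · rintro ⟨q', hq', rfl⟩
        have h1 := hNdist (v + τ) q' hq' _ (hNfwd ps hps)
        have h2 : ‖(q' - y + x) - x‖ < |R2| + 8 * D := by
          have e1 : (q' - y + x) - x = (q' - (ps - x + y)) + (ps - x) := by ring
          rw [e1]
          refine lt_of_le_of_lt (norm_add_le _ _) ?_
          linarith
        have h3 : q' - y + x - x + y = q' := by ring
        have h4 : q' - y + x ∈ P := by
          rw [htr _ h2, h3]; exact hq'.1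
        have h5 : Φ q' = Φ (q' - y + x) + τ := by
          have := hΦtr (q' - y + x) h4 (by rw [h3]; exact hq'.1)
          rwa [h3] at this
        refine ⟨u (q' - y + x), ⟨q' - y + x, ⟨h4, ?_⟩, rfl⟩, ?_⟩
        · have h6 := hq'.2
          rw [h5] at h6
          have : Φ (q' - y + x) + τ - (v + τ) = Φ (q' - y + x) - v := by abel
          rwa [this] at h6
        · simp only [u, h5, E_add]; ring
      · rintro ⟨_, ⟨p, hp, rfl⟩, rfl⟩
        refine ⟨p - x + y, hNfwd p hp, ?_⟩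
        have h5 := hΦtr p hp.1 (hNfwd p hp).1
        simp only [u, h5, E_add]; ring
    have hfinal : γ (v + τ) = γ v + (M : ℂ) * (y - x) := by
      simp only [γ]
      rw [hNeq, hc2 _ _ ((hNfin v).image u) ((hNne v).image u), E_add]
      ring
    show γ (v + τ) / M = γ v / M + (y - x)
    rw [hfinal]
    field_simp

end Pool.Agent.K4H72.Til
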