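import Pool.Agent.K4H58.XK.Spec

open Finset

namespace Pool.Agent.K4H58.XK

namespace J86

/-- block number `i` -/
def blk (n k i : ℕ) : Finset (Fin n) := univ.filter fun x : Fin n => x.1 / k = i

/-- column `c` of grid `t` -/
def col (n k t c : ℕ) : Finset (Fin n) := univ.filter fun x : Fin n => x.1 / k / k = t ∧ x.1 % k = c

theorem card_blk {n k i : ℕ} (hk : 1 ≤ k) (hi : i < n / k) : (blk n k i).card = k := by
  have h1 : (i + 1) * k ≤ n := (Nat.le_div_iff_mul_le hk).1 hi
  have h2 : ∀ r : Fin k, i * k + r.1 < n := fun r => by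
    have := r.2
    nlinarith
  have h3 : blk n k i = univ.image fun r : Fin k => (⟨i * k + r.1, h2 r⟩ : Fin n) := by
    ext x
    simp only [blk, mem_filter, mem_univ, true_and, mem_image]
    constructor
    · intro h
      refine ⟨⟨x.1 % k, Nat.mod_lt _ hk⟩, ?_⟩
      apply Fin.ext
      simp only
      rw [← h, mul_comm]
      exact Nat.div_add_mod x.1 k
    · rintro ⟨r, rfl⟩
      simp only
      rw [mul_comm, Nat.mul_add_div hk, Nat.div_eq_of_lt r.2, add_zero]
  rw [h3, card_image_of_injective, card_univ, Fintype.card_fin]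
  intro r s h
  have := congrArg Fin.val h
  simp only at this
  exact Fin.ext (by omega)

theorem card_col {n k t c : ℕ} (hk : 1 ≤ k) (ht : (t + 1) * k ≤ n / k) (hc : c < k) :
    (col n k t c).card = k := by
  have h1 : (t + 1) * k * k ≤ n := (Nat.le_div_iff_mul_le hk).1 ht
  have h2 : ∀ r : Fin k, (t * k + r.1) * k + c < n := fun r => by
    have h5 : t * k + r.1 + 1 ≤ (t + 1) * k := by
      have := r.2
      nlinarith
    have h6 : (t * k + r.1 + 1) * k ≤ (t + 1) * k * k := Nat.mul_le_mul_right k h5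
    nlinarith
  have h3 : col n k t c = univ.image fun r : Fin k => (⟨(t * k + r.1) * k + c, h2 r⟩ : Fin n) := by
    ext x
    simp only [col, mem_filter, mem_univ, true_and, mem_image]
    constructor
    · rintro ⟨h, h'⟩
      refine ⟨⟨x.1 / k % k, Nat.mod_lt _ hk⟩, ?_⟩
      apply Fin.ext
      simp only
      rw [← h, ← h', mul_comm (x.1 / k / k) k, Nat.div_add_mod, mul_comm, Nat.div_add_mod]
    · rintro ⟨r, rfl⟩
      simp only
      have e1 : ((t * k + r.1) * k + c) / k = t * k + r.1 := by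
        rw [mul_comm (t * k + r.1), Nat.mul_add_div hk, Nat.div_eq_of_lt hc, add_zero]
      rw [e1]
      refine ⟨?_, ?_⟩
      · rw [mul_comm, Nat.mul_add_div hk, Nat.div_eq_of_lt r.2, add_zero]
      · rw [Nat.mul_comm, Nat.mul_add_mod, Nat.mod_eq_of_lt hc]
  rw [h3, card_image_of_injective, card_univ, Fintype.card_fin]
  intro r s h
  have := congrArg Fin.val h
  simp only at this
  have h7 : t * k + r.1 = t * k + s.1 := Nat.eq_of_mul_eq_mul_right hk (by omega)
  exact Fin.ext (by omega)

/-- the sets `T_t` -/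
theorem exists_T {k : ℕ} (hk : 1 ≤ k) : ∃ (g : ℕ) (T : ℕ → Finset (Fin (2 * k))),
    k * (2 * k).choose k / 2 - k = k * g ∧ (∀ t, (T t).card = k) ∧
    (∀ t, (⟨0, by omega⟩ : Fin (2 * k)) ∈ T t) ∧ ∀ t < g, ∀ s, T s = T t → s = t := by
  classical
  set z : Fin (2 * k) := ⟨0, by omega⟩ with hz
  set P : Finset (Finset (Fin (2 * k))) := (powersetCard k univ).filter fun T => z ∈ T with hP
  set Q : Finset (Finset (Fin (2 * k))) := (powersetCard k univ).filter fun T => ¬ z ∈ T with hQ
  have hPQ : P.card = Q.card := by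
    apply card_bij (fun T _ => Tᶜ)
    · intro T hT
      rw [hP, mem_filter, mem_powersetCard] at hT
      rw [hQ, mem_filter, mem_powersetCard]
      refine ⟨⟨subset_univ _, ?_⟩, ?_⟩
      · rw [card_compl, Fintype.card_fin, hT.1.2]; omega
      · rw [mem_compl, not_not]; exact hT.2
    · intro T _ S _ h
      exact compl_injective h
    · intro S hS
      rw [hQ, mem_filter, mem_powersetCard] at hS
      refine ⟨Sᶜ, ?_, compl_compl S⟩
      rw [hP, mem_filter, mem_powersetCard]
      refine ⟨⟨subset_univ _, ?_⟩, ?_⟩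
      · rw [card_compl, Fintype.card_fin, hS.1.2]; omega
      · rw [mem_compl]; exact hS.2
  have hsum : P.card + Q.card = (2 * k).choose k := by
    rw [hP, hQ, card_filter_add_card_filter_not, card_powersetCard, card_univ, Fintype.card_fin]
  -- a first set
  obtain ⟨Y0, hY0z, hY0⟩ : ∃ Y0 : Finset (Fin (2 * k)), z ∈ Y0 ∧ Y0.card = k := by
    obtain ⟨Y, h1, h2, h3⟩ := exists_subsuperset_card_eq (s := {z}) (t := (univ : Finset (Fin (2 * k))))
      (n := k) (subset_univ _) (by rw [card_singleton]; exact hk)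
      (by rw [card_univ, Fintype.card_fin]; omega)
    exact ⟨Y, h1 (mem_singleton_self z), h3⟩
  have hY0P : Y0 ∈ P := by
    rw [hP, mem_filter, mem_powersetCard]
    exact ⟨⟨subset_univ _, hY0⟩, hY0z⟩
  set g := P.card - 1 with hg
  have hgc : (P.erase Y0).card = g := card_erase_of_mem hY0P
  have hPpos : 1 ≤ P.card := card_pos.2 ⟨Y0, hY0P⟩
  set e := (P.erase Y0).equivFinOfCardEq hgc with he
  have hmem : ∀ x : Fin g, ((e.symm x : {a // a ∈ P.erase Y0}) : Finset (Fin (2 * k))) ∈ P ∧
      ((e.symm x : {a // a ∈ P.erase Y0}) : Finset (Fin (2 * k))) ≠ Y0 := fun x => by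
    have := (e.symm x).2
    rw [mem_erase] at this
    exact ⟨this.2, this.1⟩
  set T : ℕ → Finset (Fin (2 * k)) := fun t => if h : t < g then
    ((e.symm ⟨t, h⟩ : {a // a ∈ P.erase Y0}) : Finset (Fin (2 * k))) else Y0 with hT
  have hTP : ∀ t, T t ∈ P := by
    intro t
    simp only [hT]
    split_ifs with h
    · exact (hmem _).1
    · exact hY0P
  refine ⟨g, T, ?_, fun t => ?_, fun t => ?_, fun t ht s hs => ?_⟩
  · have h1 : (2 * k).choose k = 2 * P.card := by omega
    rw [h1]
    have h2 : k * (2 * P.card) / 2 = k * P.card := by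
      rw [show k * (2 * P.card) = 2 * (k * P.card) by ring]
      exact Nat.mul_div_cancel_left _ (by norm_num)
    rw [h2, hg, Nat.mul_sub, mul_one]
  · have := hTP t
    rw [hP, mem_filter, mem_powersetCard] at this
    exact this.1.2
  · have := hTP t
    rw [hP, mem_filter] at this
    exact this.2
  · simp only [hT] at hs
    rw [dif_pos ht] at hs
    by_cases h : s < g
    · rw [dif_pos h] at hs
      have h1 := e.symm.injective (Subtype.ext hs)
      exact congrArg Fin.val h1
    · rw [dif_neg h] at hs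
      exact absurd hs.symm (hmem _).2

end J86

open J86 in
/-- PIECE J: the lower bound.  Let Y0 be a k-subset of [2k] with 0 ∈ Y0.  Ground set of the X's: for every k-subset T ∋ 0,
T ≠ Y0, of [2k] (there are C(2k,k)/2 - 1 of them) a k×k grid, and the rest.  Indices: (S, r) with S a k-subset of [2k],
S ≠ Y0, S ≠ Y0ᶜ, r < k: Y = S, X = the r-th row of the grid of S if 0 ∈ S, the r-th column of the grid of Sᶜ if 0 ∉ S;
and n/k - k (C(2k,k)/2 - 1) indices with Y = Y0 and pairwise disjoint X's in the rest. -/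
theorem lower_bound {k : ℕ} (hk : 1 ≤ k) : ∃ n0 : ℕ, ∀ n : ℕ, n0 ≤ n →
    ∃ F : Finset (Finset (Fin n) × Finset (Fin n)), (∀ p ∈ F, p.1.card = k ∧ p.2.card = k) ∧
      (∀ p ∈ F, ∀ q ∈ F, p ≠ q → (Disjoint p.1 q.1 ↔ ¬ Disjoint p.2 q.2)) ∧
      F.card = n / k + (k * (2 * k).choose k / 2 - k) := by
  classical
  obtain ⟨g, T, hg, hT, hTz, hTi⟩ := exists_T hk
  refine ⟨2 * k + g * k * k, fun n hn => ?_⟩
  have hn2 : 2 * k ≤ n := by omega
  have hgk : g * k ≤ n / k := (Nat.le_div_iff_mul_le hk).2 (by omega)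
  set em : Fin (2 * k) ↪ Fin n := (Fin.castLEEmb hn2) with hem
  -- the pairs
  set φ : Fin (n / k) ⊕ (Fin g × Fin k) → Finset (Fin n) × Finset (Fin n) := fun a =>
    Sum.elim (fun i => (blk n k i.1, (T (i.1 / k)).map em))
      (fun p => (col n k p.1.1 p.2.1, (T p.1.1)ᶜ.map em)) a with hφ
  have hcard : ∀ a, (φ a).1.card = k ∧ (φ a).2.card = k := by
    rintro (i | ⟨t, c⟩)
    · simp only [hφ, Sum.elim_inl]
      exact ⟨card_blk hk i.2, by rw [card_map, hT]⟩
    · simp only [hφ, Sum.elim_inr]
      refine ⟨card_col hk ?_ c.2, ?_⟩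
      · have : (t.1 + 1) * k ≤ g * k := Nat.mul_le_mul_right k t.2
        omega
      · rw [card_map, card_compl, Fintype.card_fin, hT]; omega
  -- facts on the `T`
  have hTT : ∀ s t, ¬ Disjoint (T s) (T t) := fun s t =>
    Finset.not_disjoint_iff.2 ⟨_, hTz s, hTz t⟩
  have hTTc : ∀ s t, ¬ Disjoint (T s)ᶜ (T t)ᶜ := by
    intro s t h
    have h1 : ((T s)ᶜ ∪ (T t)ᶜ).card = 2 * k := by
      rw [card_union_of_disjoint h, card_compl, card_compl, Fintype.card_fin, hT, hT]; omega
    have h2 : (T s)ᶜ ∪ (T t)ᶜ = univ := by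
      apply eq_univ_of_card
      rw [h1, Fintype.card_fin]
    have h3 : (⟨0, by omega⟩ : Fin (2 * k)) ∈ (T s)ᶜ ∪ (T t)ᶜ := by rw [h2]; exact mem_univ _
    rw [mem_union, mem_compl, mem_compl] at h3
    rcases h3 with h3 | h3
    · exact h3 (hTz s)
    · exact h3 (hTz t)
  have hTc : ∀ s, ∀ t < g, (Disjoint (T s) (T t)ᶜ ↔ s = t) := by
    intro s t ht
    constructor
    · intro h
      apply hTi t ht s
      have h1 : T s ⊆ T t := by
        intro x hx
        by_contra hcon
        exact Finset.disjoint_left.1 h hx (mem_compl.2 hcon)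
      exact eq_of_subset_of_card_le h1 (by rw [hT, hT])
    · rintro rfl
      exact disjoint_compl_right
  -- the rule
  have hmap : ∀ A B : Finset (Fin (2 * k)), Disjoint (A.map em) (B.map em) ↔ Disjoint A B :=
    fun A B => disjoint_map em
  have hrc : ∀ (i : Fin (n / k)) (t : Fin g) (c : Fin k),
      Disjoint (blk n k i.1) (col n k t.1 c.1) ↔ ¬ i.1 / k = t.1 := by
    intro i t c
    constructor
    · intro h hit
      have h1 : (i.1 + 1) * k ≤ n := (Nat.le_div_iff_mul_le hk).1 i.2
      have h2 : i.1 * k + c.1 < n := by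
        have := c.2
        nlinarith
      have e1 : (i.1 * k + c.1) / k = i.1 := by
        rw [mul_comm, Nat.mul_add_div hk, Nat.div_eq_of_lt c.2, add_zero]
      have e2 : (i.1 * k + c.1) % k = c.1 := by
        rw [Nat.mul_comm, Nat.mul_add_mod, Nat.mod_eq_of_lt c.2]
      have hx1 : (⟨i.1 * k + c.1, h2⟩ : Fin n) ∈ blk n k i.1 := by
        simp only [blk, mem_filter, mem_univ, true_and]; exact e1
      have hx2 : (⟨i.1 * k + c.1, h2⟩ : Fin n) ∈ col n k t.1 c.1 := by
        simp only [col, mem_filter, mem_univ, true_and]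
        rw [e1, e2]
        exact ⟨hit, rfl⟩
      exact Finset.disjoint_left.1 h hx1 hx2
    · intro h
      rw [Finset.disjoint_left]
      intro x hx hx'
      simp only [blk, mem_filter, mem_univ, true_and] at hx
      simp only [col, mem_filter, mem_univ, true_and] at hx'
      rw [hx] at hx'
      exact h hx'.1
  have hrule : ∀ a b, a ≠ b → (Disjoint (φ a).1 (φ b).1 ↔ ¬ Disjoint (φ a).2 (φ b).2) := by
    rintro (i | ⟨t, c⟩) (j | ⟨s, d⟩) hab
    · simp only [hφ, Sum.elim_inl]
      rw [hmap]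
      refine ⟨fun _ => hTT _ _, fun _ => ?_⟩
      rw [Finset.disjoint_left]
      intro x hx hx'
      simp only [blk, mem_filter, mem_univ, true_and] at hx hx'
      apply hab
      rw [Fin.ext (hx.symm.trans hx')]
    · simp only [hφ, Sum.elim_inl, Sum.elim_inr]
      rw [hmap, hTc _ _ s.2, hrc]
    · simp only [hφ, Sum.elim_inl, Sum.elim_inr]
      rw [disjoint_comm, hrc, hmap, disjoint_comm, hTc _ _ t.2]
    · simp only [hφ, Sum.elim_inr]
      rw [hmap]
      refine ⟨fun _ => hTTc _ _, fun _ => ?_⟩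
      rw [Finset.disjoint_left]
      intro x hx hx'
      simp only [col, mem_filter, mem_univ, true_and] at hx hx'
      apply hab
      rw [Fin.ext (hx.1.symm.trans hx'.1), Fin.ext (hx.2.symm.trans hx'.2)]
  have hinj : Function.Injective φ := by
    intro a b hab
    by_contra hne
    have h1 := hrule a b hne
    rw [← hab, disjoint_self, disjoint_self] at h1
    have h2 : (φ a).1 ≠ ∅ := by
      rw [← card_pos.trans nonempty_iff_ne_empty, (hcard a).1]; exact hk
    have h3 : (φ a).2 ≠ ∅ := by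
      rw [← card_pos.trans nonempty_iff_ne_empty, (hcard a).2]; exact hk
    exact h2 (h1.2 h3)
  refine ⟨univ.image φ, ?_, ?_, ?_⟩
  · intro p hp
    obtain ⟨a, -, rfl⟩ := mem_image.1 hp
    exact hcard a
  · intro p hp q hq hpq
    obtain ⟨a, -, rfl⟩ := mem_image.1 hp
    obtain ⟨b, -, rfl⟩ := mem_image.1 hq
    exact hrule a b fun h => hpq (by rw [h])
  · rw [card_image_of_injective _ hinj, card_univ, Fintype.card_sum, Fintype.card_prod, Fintype.card_fin,
      Fintype.card_fin, Fintype.card_fin, hg, mul_comm g k]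

end Pool.Agent.K4H58.XK
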